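import Pool.Agent.H20.LIM.Targets2
import Pool.Agent.H6.LIM.CUTA
import Pool.Agent.H19.LIM.AvB

/-!
# LAP: the Laplacian as a limit of averages
-/

set_option autoImplicit false

open Complex MeasureTheory Set Filter Topology Metric Laplacian

namespace Pool.Agent.H20.LIM

variable {φ : ℂ → ℝ}

/-- second order Taylor formula with a uniform error -/
theorem taylor2 (hφ : ContDiff ℝ 2 φ) {ω r : ℝ} (z : ℂ)
    (h : ∀ v ∈ ball (0 : ℂ) r, ‖fderiv ℝ (fderiv ℝ φ) (z + v) - fderiv ℝ (fderiv ℝ φ) z‖ ≤ ω) :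
    ∀ w ∈ ball (0 : ℂ) r, |φ (z + w) - φ z - fderiv ℝ φ z w -
      fderiv ℝ (fderiv ℝ φ) z w w / 2| ≤ ω * ‖w‖ ^ 2 := by
  have hF1 : ContDiff ℝ 1 (fderiv ℝ φ) := hφ.fderiv_right (by norm_num)
  have hdφ : ∀ y, HasFDerivAt φ (fderiv ℝ φ y) y := fun y =>
    (hφ.differentiable (by norm_num) y).hasFDerivAt
  have hdF : ∀ y, HasFDerivAt (fderiv ℝ φ) (fderiv ℝ (fderiv ℝ φ) y) y := fun y =>
    (hF1.differentiable (by norm_num) y).hasFDerivAt
  have hsymm : ∀ v w : ℂ, fderiv ℝ (fderiv ℝ φ) z v w = fderiv ℝ (fderiv ℝ φ) z w v :=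
    fun v w => second_derivative_symmetric hdφ (hdF z) v w
  intro w hw
  have hwr : ‖w‖ < r := by simpa using hw
  have hω : 0 ≤ ω := (norm_nonneg (fderiv ℝ (fderiv ℝ φ) (z + w) -
    fderiv ℝ (fderiv ℝ φ) z)).trans (h w hw)
  -- first order bound for the derivative
  have h1 : ∀ v ∈ closedBall (0 : ℂ) ‖w‖,
      ‖fderiv ℝ φ (z + v) - fderiv ℝ φ z - fderiv ℝ (fderiv ℝ φ) z v‖ ≤ ω * ‖w‖ := by
    intro v hv
    have hv' : ‖v‖ ≤ ‖w‖ := by simpa using hv
    have hd : ∀ x ∈ closedBall (0 : ℂ) ‖w‖, HasFDerivWithinAt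
        (fun x => fderiv ℝ φ (z + x) - fderiv ℝ (fderiv ℝ φ) z x)
        (fderiv ℝ (fderiv ℝ φ) (z + x) - fderiv ℝ (fderiv ℝ φ) z) (closedBall (0 : ℂ) ‖w‖) x := by
      intro x _
      have e1 : HasFDerivAt (fun x => fderiv ℝ φ (z + x)) (fderiv ℝ (fderiv ℝ φ) (z + x)) x := by
        have := (hdF (z + x)).comp x ((hasFDerivAt_id x).const_add z)
        exact this.congr_fderiv (ContinuousLinearMap.comp_id _)
      exact (e1.sub (ContinuousLinearMap.hasFDerivAt _)).hasFDerivWithinAt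
    have hb : ∀ x ∈ closedBall (0 : ℂ) ‖w‖,
        ‖fderiv ℝ (fderiv ℝ φ) (z + x) - fderiv ℝ (fderiv ℝ φ) z‖ ≤ ω := by
      intro x hx
      refine h x ?_
      rw [mem_ball_zero_iff]
      exact lt_of_le_of_lt (by simpa using hx) hwr
    have := (convex_closedBall (0 : ℂ) ‖w‖).norm_image_sub_le_of_norm_hasFDerivWithin_le hd hb
      (mem_closedBall_self (norm_nonneg _)) hv
    simp only [add_zero, map_zero, sub_zero] at this
    calc _ = ‖fderiv ℝ φ (z + v) - fderiv ℝ (fderiv ℝ φ) z v - fderiv ℝ φ z‖ := by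
          congr 1; abel
      _ ≤ ω * ‖v‖ := this
      _ ≤ ω * ‖w‖ := by gcongr
  have hd : ∀ x ∈ closedBall (0 : ℂ) ‖w‖, HasFDerivWithinAt
      (fun x => φ (z + x) - fderiv ℝ φ z x - fderiv ℝ (fderiv ℝ φ) z x x / 2)
      (fderiv ℝ φ (z + x) - fderiv ℝ φ z - fderiv ℝ (fderiv ℝ φ) z x)
      (closedBall (0 : ℂ) ‖w‖) x := by
    intro x _
    have e1 : HasFDerivAt (fun x => φ (z + x)) (fderiv ℝ φ (z + x)) x := by
      have := (hdφ (z + x)).comp x ((hasFDerivAt_id x).const_add z)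
      exact this.congr_fderiv (ContinuousLinearMap.comp_id _)
    have e2 : HasFDerivAt (fun x => fderiv ℝ (fderiv ℝ φ) z x x / 2)
        (fderiv ℝ (fderiv ℝ φ) z x) x := by
      have e3 := (fderiv ℝ (fderiv ℝ φ) z).hasFDerivAt (x := x)
      have e4 := (e3.clm_apply (hasFDerivAt_id x)).mul_const (2 : ℝ)⁻¹
      refine (e4.congr_fderiv ?_).congr_of_eventuallyEq (Eventually.of_forall fun y => ?_)
      · ext v
        simp [hsymm v x]
        ring
      · simp [div_eq_mul_inv]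
    exact ((e1.sub (ContinuousLinearMap.hasFDerivAt _)).sub e2).hasFDerivWithinAt
  have := (convex_closedBall (0 : ℂ) ‖w‖).norm_image_sub_le_of_norm_hasFDerivWithin_le hd h1
    (mem_closedBall_self (norm_nonneg _)) (mem_closedBall_zero_iff.2 le_rfl)
  simp only [add_zero, map_zero, sub_zero, zero_div] at this
  rw [Real.norm_eq_abs] at this
  calc _ = |φ (z + w) - fderiv ℝ φ z w - fderiv ℝ (fderiv ℝ φ) z w w / 2 - φ z| := by
        congr 1; ring
    _ ≤ ω * ‖w‖ * ‖w‖ := this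
    _ = _ := by ring

theorem laplacian_eq (z : ℂ) : (Δ φ) z =
    fderiv ℝ (fderiv ℝ φ) z 1 1 + fderiv ℝ (fderiv ℝ φ) z I I := by
  rw [InnerProductSpace.laplacian_eq_iteratedFDeriv_complexPlane]
  simp [iteratedFDeriv_two_apply]

theorem int_quad (G : ℂ →L[ℝ] ℂ →L[ℝ] ℝ) {r : ℝ} (hr : 0 < r) :
    ∫ w in ball (0 : ℂ) r, G w w = Real.pi * r ^ 4 / 4 * (G 1 1 + G I I) := by
  have e : ∀ w : ℂ, G w w = w.re ^ 2 * G 1 1 + w.im ^ 2 * G I I +
      w.re * w.im * (G 1 I + G I 1) := by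
    intro w
    have h1 : w = w.re • (1 : ℂ) + w.im • I := by
      simp [Complex.re_add_im]
    conv_lhs => rw [h1]
    simp only [map_add, map_smul, add_apply, smul_apply, smul_eq_mul]
    ring
  have hc : ∀ f : ℂ → ℝ, Continuous f → IntegrableOn f (ball (0 : ℂ) r) := fun f hf =>
    Pool.Agent.H6.LIM.contInt hf 0 r
  have him : ∫ w in ball (0 : ℂ) r, w.im ^ 2 = Real.pi * r ^ 4 / 4 := by
    have h1 := Pool.Agent.H6.LIM.int_rot r (fun w => w.im ^ 2)
    have h2 : ∀ w : ℂ, (I * w).im ^ 2 = w.re ^ 2 := by intro w; simp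
    rw [← h1, ← Pool.Agent.H6.LIM.int_re_sq r hr]
    exact integral_congr_ae (Eventually.of_forall h2)
  have hmix : ∫ w in ball (0 : ℂ) r, w.re * w.im = 0 := by
    have h1 := Pool.Agent.H6.LIM.int_rot r (fun w => w.re * w.im)
    have h2 : ∀ w : ℂ, (I * w).re * (I * w).im = -(w.re * w.im) := by
      intro w
      simp
      ring
    have h3 : ∫ w in ball (0 : ℂ) r, (I * w).re * (I * w).im =
        ∫ w in ball (0 : ℂ) r, -(w.re * w.im) := integral_congr_ae (Eventually.of_forall h2)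
    rw [h3, integral_neg] at h1
    linarith
  rw [integral_congr_ae (Eventually.of_forall e)]
  have i1 : IntegrableOn (fun w : ℂ => w.re ^ 2 * G 1 1) (ball (0 : ℂ) r) := hc _ (by fun_prop)
  have i2 : IntegrableOn (fun w : ℂ => w.im ^ 2 * G I I) (ball (0 : ℂ) r) := hc _ (by fun_prop)
  have i3 : IntegrableOn (fun w : ℂ => w.re * w.im * (G 1 I + G I 1)) (ball (0 : ℂ) r) :=
    hc _ (by fun_prop)
  have i4 : IntegrableOn (fun w : ℂ => w.re ^ 2 * G 1 1 + w.im ^ 2 * G I I) (ball (0 : ℂ) r) :=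
    i1.add i2
  rw [integral_add i4 i3, integral_add i1 i2, integral_mul_const,
    integral_mul_const, integral_mul_const, Pool.Agent.H6.LIM.int_re_sq r hr, him, hmix]
  ring

theorem pf_lap : T_LAP := by
  intro φ hφ hc δ hδ
  have hF1 : ContDiff ℝ 1 (fderiv ℝ φ) := hφ.fderiv_right (by norm_num)
  have hGc : Continuous (fderiv ℝ (fderiv ℝ φ)) := hF1.continuous_fderiv (by norm_num)
  have hGs : HasCompactSupport (fderiv ℝ (fderiv ℝ φ)) := (hc.fderiv ℝ).fderiv ℝ
  have hu : UniformContinuous (fderiv ℝ (fderiv ℝ φ)) := hGs.uniformContinuous_of_continuous hGc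
  obtain ⟨r₀, hr₀, h⟩ := (@Metric.uniformContinuous_iff ℂ (ℂ →L[ℝ] ℂ →L[ℝ] ℝ) _ _
    (fderiv ℝ (fderiv ℝ φ))).mp hu (δ / 8) (by positivity)
  refine ⟨r₀, hr₀, fun r hr hrr z => ?_⟩
  have hpi := Real.pi_pos
  have hT := taylor2 hφ (ω := δ / 8) (r := r) z (fun v hv => by
    have h1 : dist (z + v) z < r₀ := by
      rw [dist_eq_norm, add_sub_cancel_left]
      exact lt_of_lt_of_le (by simpa using hv) hrr
    have := h h1
    exact (le_of_eq (dist_eq_norm (fderiv ℝ (fderiv ℝ φ) (z + v))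
      (fderiv ℝ (fderiv ℝ φ) z)).symm).trans this.le)
  set F := fderiv ℝ φ z with hF
  set G := fderiv ℝ (fderiv ℝ φ) z with hG
  have hI : ∀ f : ℂ → ℝ, Continuous f → IntegrableOn f (ball (0 : ℂ) r) := fun f hf =>
    Pool.Agent.H6.LIM.contInt hf 0 r
  have hφc : Continuous φ := hφ.continuous
  have hlin : ∫ w in ball (0 : ℂ) r, F w = 0 := by
    have h1 := Pool.Agent.H6.LIM.int_neg r (fun w => F w)
    simp only [map_neg] at h1
    rw [integral_neg] at h1
    linarith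
  have hvol : (volume : Measure ℂ).real (ball (0 : ℂ) r) = Real.pi * r ^ 2 := by
    rw [Measure.real, Complex.volume_ball]
    simp [ENNReal.toReal_ofReal hr.le]
    ring
  have hcG : Continuous fun w : ℂ => G w w :=
    (G.continuous.clm_apply continuous_id)
  have key : ∫ w in ball (0 : ℂ) r, (φ (z + w) - φ z - F w - G w w / 2) =
      (∫ w in ball (0 : ℂ) r, φ (z + w)) - Real.pi * r ^ 2 * φ z -
        Real.pi * r ^ 4 / 8 * (G 1 1 + G I I) := by
    have i1 : IntegrableOn (fun w => φ (z + w)) (ball (0 : ℂ) r) := hI _ (by fun_prop)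
    have i2 : IntegrableOn (fun _ : ℂ => φ z) (ball (0 : ℂ) r) := hI _ (by fun_prop)
    have i3 : IntegrableOn (fun w => F w) (ball (0 : ℂ) r) := hI _ (by fun_prop)
    have i4 : IntegrableOn (fun w => G w w / 2) (ball (0 : ℂ) r) := hI _ (hcG.div_const 2)
    have i5 : IntegrableOn (fun w => φ (z + w) - φ z) (ball (0 : ℂ) r) := i1.sub i2
    have i6 : IntegrableOn (fun w => φ (z + w) - φ z - F w) (ball (0 : ℂ) r) := i5.sub i3
    rw [integral_sub i6 i4, integral_sub i5 i3, integral_sub i1 i2, hlin,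
      integral_div, int_quad G hr, setIntegral_const, hvol, smul_eq_mul]
    ring
  have hbd : |∫ w in ball (0 : ℂ) r, (φ (z + w) - φ z - F w - G w w / 2)| ≤
      (δ / 8 * r ^ 2) * (Real.pi * r ^ 2) := by
    rw [← hvol, ← Real.norm_eq_abs]
    refine norm_setIntegral_le_of_norm_le_const (by rw [Complex.volume_ball]; finiteness) ?_
    intro w hw
    rw [Real.norm_eq_abs]
    refine (hT w hw).trans ?_
    have : ‖w‖ < r := by simpa using hw
    gcongr
  have hav : av r φ z = (Real.pi * r ^ 2)⁻¹ * ∫ w in ball (0 : ℂ) r, φ (z + w) :=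
    Pool.Agent.H19.LIM.av_eq0 hr.le φ z
  rw [laplacian_eq, ← hG, hav]
  have hr2 : 0 < Real.pi * r ^ 4 / 8 := by positivity
  have e : 8 / r ^ 2 * ((Real.pi * r ^ 2)⁻¹ * (∫ w in ball (0 : ℂ) r, φ (z + w)) - φ z) -
      (G 1 1 + G I I) = (Real.pi * r ^ 4 / 8)⁻¹ *
        ∫ w in ball (0 : ℂ) r, (φ (z + w) - φ z - F w - G w w / 2) := by
    rw [key]
    field_simp
  rw [e, abs_mul, abs_of_pos (inv_pos.2 hr2), inv_mul_le_iff₀ hr2]
  refine hbd.trans (le_of_eq ?_)
  ring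

end Pool.Agent.H20.LIM
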