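import Pool.Agent.H20.LIM.Fin
import Pool.Agent.H20.LIM.LAP
import Pool.Agent.H47.LIM.ZF
import Pool.Agent.H68.LIM.COR
import Pool.Agent.H19.LIM.KR
import Pool.Agent.H19.LIM.LAN
import Pool.Agent.H19.LIM.REG
import Pool.Agent.H19.LIM.TRA
import Pool.Agent.H2.LIM.FAC
import Pool.Agent.H2.LIM.LJ
import Pool.Agent.H33.LIM.HARM
import Pool.Agent.H35.LIM.DIS
import Pool.Agent.H36.LIM.AG
import Pool.Agent.H36.LIM.ALOG
import Pool.Agent.H36.LIM.GRD
import Pool.Agent.H36.LIM.STR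
import Pool.Agent.H42.LIM.RGT
import Pool.Agent.H49.LIM.EXF
import Pool.Agent.H5.LIM.EXPA
import Pool.Agent.H50.LIM.LSub
import Pool.Agent.H51.LIM.GRO
import Pool.Agent.H51.LIM.ZER
import Pool.Agent.H56.LIM.CPT
import Pool.Agent.H56.LIM.GL
import Pool.Agent.H56.LIM.VPR
import Pool.Agent.H6.LIM.CUT
import Pool.Agent.H6.LIM.CUTA
import Pool.Agent.H6.LIM.PSI
import Pool.Agent.H64.LIM.EXP1
import Pool.Agent.H64.LIM.INV
import Pool.Agent.H65.LIM.POL
import Pool.Agent.H66.LIM.BC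
import Pool.Agent.H66.LIM.LI
import Pool.Agent.H67.LIM.LIMP
import Pool.Agent.H69.LIM.FUN
import Pool.Agent.H69.LIM.SYM
import Pool.Agent.H71.LIM.NAP
import Pool.Agent.H71.LIM.SAD
import Pool.Agent.H74.LIM.AVC
import Pool.Agent.H74.LIM.RIE
import Pool.Agent.H74.LIM.SMP
import Pool.Agent.H81.LIM.AVF
import Pool.Agent.H84.LIM.SM
import Pool.Agent.H85.LIM.COR1
import Pool.Agent.H85.LIM.DIAG
import Pool.Agent.H89.LIM.RAT
import Pool.Agent.H90.LIM.AVL
import Pool.Agent.H90.LIM.DIL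
import Pool.Agent.H90.LIM.LGB
import Pool.Agent.H90.LIM.PLB
import Pool.Agent.H90.LIM.ULB
import Pool.Agent.H90.LIM.UNQ
import Pool.Agent.H91.LIM.COMP
import Pool.Agent.H91.LIM.FEU
import Pool.Agent.H96.LIM.KER
import Pool.Agent.H96.LIM.LD
import Pool.Agent.H96.LIM.REAL
import Pool.Agent.H96.LIM.SEQ
import Pool.Agent.H97.LIM.ADJ
import Pool.Agent.H97.LIM.DISC
import Pool.Agent.H99.LIM.EXP2
import Pool.Agent.H99.LIM.FAMR

/-!
# Limits of `L`-functions near the critical line: all modules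
-/

set_option autoImplicit false

namespace Pool.Agent.H20.LIM.All

open Pool.Agent.H20.LIM

theorem pol : T_POL := Pool.Agent.H65.LIM.pf_pol
theorem tra : T_TRA := Pool.Agent.H19.LIM.pf_tra
theorem avf : T_AVF := Pool.Agent.H81.LIM.pf_avf
theorem avl : T_AVL := Pool.Agent.H90.LIM.pf_avl
theorem avc : T_AVC := Pool.Agent.H74.LIM.pf_avc tra
theorem smp : T_SMP := Pool.Agent.H74.LIM.pf_smp
theorem plb : T_PLB := Pool.Agent.H90.LIM.pf_plb avf smp pol
theorem gro : T_GRO := Pool.Agent.H51.LIM.pf_gro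
theorem lan : T_LAN := Pool.Agent.H19.LIM.pf_lan gro
theorem rgt : T_RGT := Pool.Agent.H42.LIM.pf_rgt gro lan
theorem unq : T_UNQ := Pool.Agent.H90.LIM.pf_unq
theorem diag : T_DIAG := Pool.Agent.H85.LIM.pf_diag
theorem harm : T_HARM := Pool.Agent.H33.LIM.pf_harm
theorem zf : T_ZF := Pool.Agent.H47.LIM.pf_zf
theorem bc : T_BC := Pool.Agent.H66.LIM.pf_bc
theorem sm : T_SM := Pool.Agent.H84.LIM.sm pol zf
theorem li : T_LI := Pool.Agent.H66.LIM.pf_li sm
theorem lj : T_LJ := Pool.Agent.H2.LIM.pf_lj sm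
theorem fac : T_FAC := Pool.Agent.H2.LIM.pf_fac zf bc
theorem comp : T_COMP := Pool.Agent.H91.LIM.pf_comp fac harm tra li
theorem seq : T_SEQ := Pool.Agent.H96.LIM.pf_seq comp diag gro
theorem lgb : T_LGB := Pool.Agent.H90.LIM.pf_lgb li
theorem rat : T_RAT := Pool.Agent.H89.LIM.pf_rat lgb
theorem feu : T_FEU := Pool.Agent.H91.LIM.pf_feu rat
theorem cpt : T_CPT := Pool.Agent.H56.LIM.pf_cpt seq feu lan
theorem lsub : T_LSUB := Pool.Agent.H50.LIM.pf_lsub sm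
theorem limp : T_LIMP := Pool.Agent.H67.LIM.pf_limp lsub cpt lan rgt unq smp plb
theorem exp1 : T_EXP1 := Pool.Agent.H64.LIM.pf_exp1
theorem exp2 : T_EXP2 := Pool.Agent.H99.LIM.pf_exp2 cpt sm lan

theorem vpr : T_VPR := Pool.Agent.H56.LIM.pf_vpr
theorem ulb : T_ULB := Pool.Agent.H90.LIM.pf_ulb avf
theorem dil : T_DIL := Pool.Agent.H90.LIM.pf_dil tra
theorem reg : T_REG := Pool.Agent.H19.LIM.pf_reg ulb avf avl avc
theorem psi : T_PSI := Pool.Agent.H6.LIM.pf_psi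
theorem cuta : T_CUTA := Pool.Agent.H6.LIM.pf_cuta
theorem cut : T_CUT := Pool.Agent.H6.LIM.pf_cut psi cuta
theorem nap : T_NAP := Pool.Agent.H71.LIM.pf_nap vpr dil reg cut

theorem kr : T_KR := Pool.Agent.H19.LIM.pf_kr pol li
theorem alog : T_ALOG := Pool.Agent.H36.LIM.pf_alog pol li
theorem ag : T_AG := Pool.Agent.H36.LIM.pf_ag alog pol li
theorem str : T_STR := Pool.Agent.H36.LIM.pf_str
theorem adj : T_ADJ := Pool.Agent.H97.LIM.pf_adj str
theorem ker : T_KER := Pool.Agent.H96.LIM.KER.pf_ker adj ag str li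
theorem gl : T_GL := Pool.Agent.H56.LIM.pf_gl tra li
theorem grd : T_GRD := Pool.Agent.H36.LIM.pf_grd
theorem dis : T_DIS := Pool.Agent.H35.LIM.pf_dis grd gl
theorem disc : T_DISC := Pool.Agent.H97.LIM.pf_disc dis ker kr avf
theorem sym : T_SYM := Pool.Agent.H69.LIM.pf_sym
theorem inv : T_INV := Pool.Agent.H64.LIM.pf_inv
theorem cor1 : T_COR1 := Pool.Agent.H85.LIM.pf_cor1 inv
theorem cor : T_COR := Pool.Agent.H68.LIM.pf_cor cor1 lj
theorem exf : T_EXF := Pool.Agent.H49.LIM.pf_exf disc sym cor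
theorem expa : T_EXPA := Pool.Agent.H5.LIM.pf_expa nap exf
theorem ld : T_LD := Pool.Agent.H96.LIM.pf_ld
theorem famr : T_FAMR := Pool.Agent.H99.LIM.pf_famr ld
theorem real : T_REAL := Pool.Agent.H96.LIM.REAL.pf_real famr expa smp li

theorem lap : T_LAP := pf_lap
theorem sad : T_SAD := Pool.Agent.H71.LIM.pf_sad
theorem fun_ : T_FUN := Pool.Agent.H69.LIM.pf_fun lap sad alog kr li
theorem rie : T_RIE := Pool.Agent.H74.LIM.pf_rie lap sad fun_ pol
theorem zer : T_ZER := Pool.Agent.H51.LIM.pf_zer rie lan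

end Pool.Agent.H20.LIM.All
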