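import Pool.Agent.H20.LIM.Fin

/-!
# Limits of `L`-functions near the critical line: the extremal profile
-/

set_option autoImplicit false

open Complex MeasureTheory Set Filter Topology Metric

namespace Pool.Agent.H20.LIM

open Pool.Agent.H23.GLM Pool.Agent.H23.DZ

/-- The largest profile. -/
noncomputable def umax (z : ℂ) : ℝ := max (max 0 (1 / 4 - z.re / 2)) (-z.re)

lemma umax_cont : Continuous umax := by
  unfold umax
  exact (continuous_const.max (by fun_prop)).max (by fun_prop)

lemma avg_affine (b c : ℝ) (z : ℂ) {r : ℝ} (hr : 0 < r) :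
    ⨍ w in ball z r, (b + c * w.re) = b + c * z.re := by
  have hvol : volume (ball z r) ≠ ⊤ := measure_ball_lt_top.ne
  have hvol0 : volume (ball z r) ≠ 0 := (measure_ball_pos _ _ hr).ne'
  have hfin : IsFiniteMeasure (volume.restrict (ball z r)) := ⟨by
    rw [Measure.restrict_apply_univ]
    exact measure_ball_lt_top⟩
  have hint : IntegrableOn (fun w : ℂ => w.re) (ball z r) :=
    (continuous_re.continuousOn.integrableOn_compact (isCompact_closedBall z r)).mono_set
      ball_subset_closedBall
  have key : ∫ w in ball z r, w.re = (volume.real (ball z r)) * z.re := by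
    have h1 : ∫ w in ball z r, (w.re - z.re) = 0 := by
      have h2 : ∫ w in ball z r, (w.re - z.re) = ∫ w in ball z r, -(w.re - z.re) := by
        have e : MeasurePreserving (fun w : ℂ => 2 * z - w) volume volume :=
          Measure.measurePreserving_sub_left volume (2 * z)
        have h3 := e.setIntegral_preimage_emb (MeasurableEquiv.subLeft (2 * z)).measurableEmbedding
          (fun w : ℂ => (w.re - z.re)) (ball z r)
        have h4 : (fun w : ℂ => 2 * z - w) ⁻¹' ball z r = ball z r := by
          ext w
          simp only [mem_preimage, mem_ball, dist_eq_norm]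
          have : 2 * z - w - z = -(w - z) := by ring
          rw [this, norm_neg]
        rw [h4] at h3
        rw [← h3]
        refine setIntegral_congr_fun measurableSet_ball fun w _ => ?_
        simp
        ring
      rw [integral_neg] at h2
      linarith
    rw [integral_sub hint (integrable_const _)] at h1
    rw [setIntegral_const, smul_eq_mul] at h1
    linarith
  rw [setAverage_eq, integral_add (integrable_const _) (hint.const_mul c), integral_const_mul, key,
    setIntegral_const, smul_eq_mul, smul_eq_mul]
  have h0 : volume.real (ball z r) ≠ 0 := by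
    rw [Measure.real, ENNReal.toReal_ne_zero]
    exact ⟨hvol0, hvol⟩
  field_simp

lemma umax_sub (z : ℂ) {r : ℝ} (hr : 0 < r) : umax z ≤ ⨍ w in ball z r, umax w := by
  have hvol0 : volume (ball z r) ≠ 0 := (measure_ball_pos _ _ hr).ne'
  have hI : ∀ f : ℂ → ℝ, Continuous f → IntegrableOn f (ball z r) := fun f hf =>
    (hf.continuousOn.integrableOn_compact (isCompact_closedBall z r)).mono_set
      ball_subset_closedBall
  have mono : ∀ b c : ℝ, (∀ w : ℂ, b + c * w.re ≤ umax w) →
      b + c * z.re ≤ ⨍ w in ball z r, umax w := by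
    intro b c h
    rw [← avg_affine b c z hr, setAverage_eq, setAverage_eq]
    refine smul_le_smul_of_nonneg_left ?_ (by positivity)
    exact setIntegral_mono (hI _ (by fun_prop)) (hI _ umax_cont) h
  have h1 := mono 0 0 (fun w => by
    simp only [umax, zero_mul, add_zero]
    exact le_max_of_le_left (le_max_left _ _))
  have h2 := mono (1 / 4) (-(1 / 2)) (fun w => by
    unfold umax
    refine le_max_of_le_left (le_max_of_le_right ?_)
    linarith)
  have h3 := mono 0 (-1) (fun w => by
    unfold umax
    refine le_max_of_le_right ?_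
    linarith)
  unfold umax at h1 h2 h3 ⊢
  refine max_le (max_le ?_ ?_) ?_ <;> linarith

theorem umax_profile : Profile 1 umax where
  loc := umax_cont.locallyIntegrable
  sub := fun r hr => Eventually.of_forall fun z => umax_sub z hr
  right := by
    refine Eventually.of_forall fun z hz => ?_
    unfold umax
    rw [max_eq_left (by linarith : 1 / 4 - z.re / 2 ≤ 0), max_eq_left (by linarith)]
  func := by
    refine Eventually.of_forall fun z => ?_
    unfold umax
    simp only [neg_re, conj_re, one_mul, neg_neg]
    have e1 : max (max 0 (1 / 4 - z.re / 2)) (-z.re) + z.re =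
        max (max z.re (1 / 4 + z.re / 2)) 0 := by
      rw [← max_add_add_right, ← max_add_add_right]
      congr 1
      · congr 1 <;> ring
      · ring
    have e2 : 1 / 4 - -z.re / 2 = 1 / 4 + z.re / 2 := by ring
    rw [e1, e2, max_comm _ (0 : ℝ), ← max_assoc, max_right_comm]
  conv := by
    refine Eventually.of_forall fun z hz => ?_
    rw [abs_le] at hz
    unfold umax
    refine max_le (max_le ?_ ?_) ?_ <;> linarith [hz.1, hz.2]

/-- No exponent below `1/4` follows from the axioms. -/
theorem no_subconvexity (hEXP1 : T_EXP1) (hREAL : T_REAL) {m : ℕ} (hm : 1 ≤ m) :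
    ∃ S : Set (LData m), Molteni S ∧ FarBounds S ∧ ∀ a : ℝ, a < 1 / 4 → ¬ Bound S a := by
  obtain ⟨S, hM, hF, hL⟩ := hREAL m 1 umax hm zero_le_one le_rfl umax_profile
  refine ⟨S, hM, hF, fun a ha hB => ?_⟩
  set b := max a 0 with hb
  have hb0 : 0 ≤ b := le_max_right _ _
  have hb4 : b < 1 / 4 := max_lt ha (by norm_num)
  have h1 : ∀ ε : ℝ, 0 < ε → Bound S (b + ε) := by
    intro ε hε
    obtain ⟨B, hB⟩ := hB
    refine ⟨max B 0, fun π hπ t => (hB π hπ t).trans ?_⟩
    have hX := π.one_le_X t
    have h2 : π.X t ^ a ≤ π.X t ^ (b + ε) :=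
      Real.rpow_le_rpow_of_exponent_le hX (by linarith [le_max_left a 0])
    have h3 : 0 ≤ π.X t ^ a := by positivity
    have h4 : 0 ≤ max B 0 := le_max_right _ _
    calc B * π.X t ^ a ≤ max B 0 * π.X t ^ a := by
          gcongr
          exact le_max_left _ _
      _ ≤ _ := by gcongr
  have h2 := hEXP1 m S hM b hb0 h1 1 umax hL
  have h3 : volume {z : ℂ | ¬ (0 < z.re → umax z ≤ b)} = 0 := h2
  have hopen : IsOpen {z : ℂ | 0 < z.re ∧ b < umax z} :=
    (isOpen_lt continuous_const continuous_re).inter (isOpen_lt continuous_const umax_cont)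
  have hne : {z : ℂ | 0 < z.re ∧ b < umax z}.Nonempty := by
    refine ⟨(((1 / 4 - b) : ℝ) : ℂ), ?_, ?_⟩
    · show 0 < (((1 / 4 - b) : ℝ) : ℂ).re
      rw [ofReal_re]
      linarith
    · show b < umax (((1 / 4 - b) : ℝ) : ℂ)
      unfold umax
      rw [ofReal_re]
      refine lt_max_of_lt_left (lt_max_of_lt_right ?_)
      linarith
  have h4 := hopen.measure_pos volume hne
  refine absurd h3 (ne_of_gt (h4.trans_le (measure_mono ?_)))
  rintro z ⟨h5, h6⟩ h7
  exact absurd (h7 h5) (not_le.2 h6)

end Pool.Agent.H20.LIM
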