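import Pool.Agent.H23.DZ.Defs

/-!
# Limits of `L`-functions near the critical line: definitions

For an `L`-datum `π` and a real number `t` the function `U π t` is the normalised logarithm
`log |L(1/2 + it + z, π)| / log X`, `X = C_π (1 + |t|)^m`, as a function of the complex variable `z`.
`ToL1 f u` is convergence in `L^1` on every disc. `Profile q u` is the class of functions which will
turn out to be the class of all limits of the functions `U π t` for `X → ∞`; here `q` is the limit of
`log Q / log X`, `Q = N ∏_j (1 + |it - μ_j|)` the local conductor.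
-/

set_option autoImplicit false

open Complex MeasureTheory Set Filter Topology Metric

namespace Pool.Agent.H20.LIM

open Pool.Agent.H23.GLM Pool.Agent.H23.DZ

/-- The normalised logarithm `log |L(1/2 + it + z, π)| / log X`, with `X = C_π (1 + |t|)^m`. -/
noncomputable def U {m : ℕ} (π : LData m) (t : ℝ) (z : ℂ) : ℝ :=
  Real.log ‖π.L (1 / 2 + t * I + z)‖ / Real.log (π.X t)

/-- Convergence in `L^1` on every disc of the complex plane. -/
def ToL1 (f : ℕ → ℂ → ℝ) (u : ℂ → ℝ) : Prop :=
  AEStronglyMeasurable u volume ∧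
    ∀ R : ℝ, Tendsto (fun k => ∫⁻ z in closedBall (0 : ℂ) R, ‖f k z - u z‖ₑ) atTop (𝓝 0)

/-- The class of profiles: `u` is locally integrable, has the sub-mean value property for all
discs, vanishes for `Re z > 1/2`, satisfies the functional equation `u(-conj z) = u(z) + q Re z` and
the convexity bound `u(z) ≤ (q/2)(1/2 - Re z)` in the critical strip `|Re z| ≤ 1/2` (all this for
almost all `z`). -/
structure Profile (q : ℝ) (u : ℂ → ℝ) : Prop where
  loc : LocallyIntegrable u volume
  sub : ∀ r : ℝ, 0 < r → ∀ᵐ z : ℂ, u z ≤ ⨍ w in ball z r, u w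
  right : ∀ᵐ z : ℂ, 1 / 2 < z.re → u z = 0
  func : ∀ᵐ z : ℂ, u (-(starRingEnd ℂ) z) = u z + q * z.re
  conv : ∀ᵐ z : ℂ, |z.re| ≤ 1 / 2 → u z ≤ q / 2 * (1 / 2 - z.re)

/-- `(q, u)` is a limit of the set `S` of `L`-data: for some `π_k ∈ S` and real `t_k` with `X → ∞` the
normalised logarithms converge to `u` in `L^1` on every disc, and `log Q / log X` converges to `q`. -/
def IsLimit {m : ℕ} (S : Set (LData m)) (q : ℝ) (u : ℂ → ℝ) : Prop :=
  ∃ (π : ℕ → LData m) (t : ℕ → ℝ), (∀ k, π k ∈ S) ∧
    Tendsto (fun k => (π k).X (t k)) atTop atTop ∧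
    Tendsto (fun k => Real.log ((π k).Q (t k)) / Real.log ((π k).X (t k))) atTop (𝓝 q) ∧
    ToL1 (fun k => U (π k) (t k)) u

end Pool.Agent.H20.LIM
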