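import Pool.Agent.H20.LIM.Targets2
import Pool.Agent.H23.DZ.Fin

/-!
# Limits of `L`-functions near the critical line: assembly
-/

set_option autoImplicit false

open Complex MeasureTheory Set Filter Topology Metric Laplacian

namespace Pool.Agent.H20.LIM

open Pool.Agent.H23.GLM Pool.Agent.H23.DZ

variable {m : ℕ}

/-- The exponent on the critical line in terms of the limits. -/
theorem exponent_iff (hEXP1 : T_EXP1) (hEXP2 : T_EXP2) {S : Set (LData m)} (hM : Molteni S)
    (hF : FarBounds S) {a : ℝ} (ha : 0 ≤ a) : (∀ ε : ℝ, 0 < ε → Bound S (a + ε)) ↔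
      ∀ (q : ℝ) (u : ℂ → ℝ), IsLimit S q u → ∀ᵐ z : ℂ, 0 < z.re → u z ≤ a :=
  ⟨fun h => hEXP1 m S hM a ha h, fun h => hEXP2 m S hM hF a ha h⟩

/-- The bound of the Grand Lindelof Hypothesis in terms of the limits. -/
theorem glh_iff_limits (hEXP1 : T_EXP1) (hEXP2 : T_EXP2) (hLIMP : T_LIMP) (hSMP : T_SMP)
    (hm : 1 ≤ m) {S : Set (LData m)} (hM : Molteni S) (hF : FarBounds S) : GLH S ↔
      ∀ (q : ℝ) (u : ℂ → ℝ), IsLimit S q u → ∀ᵐ z : ℂ, 0 < z.re → u z = 0 := by
  have h1 : (∀ ε : ℝ, 0 < ε → Bound S ε) ↔ ∀ ε : ℝ, 0 < ε → Bound S (0 + ε) := by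
    simp only [zero_add]
  rw [glh_iff hm, h1, exponent_iff hEXP1 hEXP2 hM hF le_rfl]
  constructor
  · intro h q u hu
    obtain ⟨_, _, hP⟩ := hLIMP m S hM hF q u hu
    have hG : IsOpen {z : ℂ | 0 < z.re} := isOpen_lt continuous_const continuous_re
    have hGp : IsPreconnected {z : ℂ | 0 < z.re} := (convex_halfSpace_re_gt 0).isPreconnected
    have key := hSMP u {z : ℂ | 0 < z.re} hP.loc hP.sub hG hGp (h q u hu)
      ⟨2, 1, one_pos, ?_, ?_⟩
    · exact key
    · intro z hz
      have h2 := abs_re_le_norm (z - 2)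
      rw [mem_ball, dist_eq_norm] at hz
      have h3 := neg_abs_le (z - 2).re
      rw [sub_re] at h2 h3
      have h4 : (2 : ℂ).re = 2 := rfl
      show 0 < z.re
      linarith
    · filter_upwards [hP.right] with z hz hz2
      apply hz
      have h2 := abs_re_le_norm (z - 2)
      rw [mem_ball, dist_eq_norm] at hz2
      have h3 := neg_abs_le (z - 2).re
      rw [sub_re] at h2 h3
      have h4 : (2 : ℂ).re = 2 := rfl
      linarith
  · intro h q u hu
    filter_upwards [h q u hu] with z hz hz2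
    exact (hz hz2).le

/-- The reflection `z ↦ -conj z` preserves null sets. -/
theorem ae_refl {p : ℂ → Prop} (h : ∀ᵐ z : ℂ, p z) :
    ∀ᵐ z : ℂ, p (-(starRingEnd ℂ) z) := by
  have h1 : MeasurePreserving (fun z : ℂ => -(starRingEnd ℂ) z) volume volume := by
    have h2 : MeasurePreserving (fun z : ℂ => (starRingEnd ℂ) z) volume volume :=
      conjLIE.measurePreserving
    exact (Measure.measurePreserving_neg (volume : Measure ℂ)).comp h2
  exact h1.quasiMeasurePreserving.ae h

/-- The bound of the Grand Lindelof Hypothesis: the only limits are the trivial ones. -/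
theorem glh_iff_trivial (hEXP1 : T_EXP1) (hEXP2 : T_EXP2) (hLIMP : T_LIMP) (hSMP : T_SMP)
    (hm : 1 ≤ m) {S : Set (LData m)} (hM : Molteni S) (hF : FarBounds S) : GLH S ↔
      ∀ (q : ℝ) (u : ℂ → ℝ), IsLimit S q u → ∀ᵐ z : ℂ, u z = q * max 0 (-z.re) := by
  rw [glh_iff_limits hEXP1 hEXP2 hLIMP hSMP hm hM hF]
  constructor
  · intro h q u hu
    obtain ⟨_, _, hP⟩ := hLIMP m S hM hF q u hu
    have h1 := h q u hu
    have h0 : ∀ᵐ z : ℂ, z.re ≠ 0 := by
      have h2 : volume {z : ℂ | z.re = 0} = 0 := by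
        have h3 : MeasurePreserving Complex.measurableEquivRealProd volume volume :=
          Complex.volume_preserving_equiv_real_prod
        have h4 : {z : ℂ | z.re = 0} = Complex.measurableEquivRealProd ⁻¹' ({0} ×ˢ univ) := by
          ext z
          simp [Complex.measurableEquivRealProd_apply]
        rw [h4, h3.measure_preimage_equiv, Measure.volume_eq_prod, Measure.prod_prod]
        simp
      exact measure_eq_zero_iff_ae_notMem.mp h2
    filter_upwards [h1, ae_refl h1, hP.func, h0] with z h2 h3 h4 h5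
    rcases lt_or_gt_of_ne h5 with h6 | h6
    · have h7 : 0 < (-(starRingEnd ℂ) z).re := by simp [h6]
      rw [h3 h7] at h4
      rw [max_eq_right (by linarith)]
      linarith
    · rw [h2 h6, max_eq_left (by linarith), mul_zero]
  · intro h q u hu
    filter_upwards [h q u hu] with z hz hz2
    rw [hz, max_eq_left (by linarith), mul_zero]

end Pool.Agent.H20.LIM
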