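import Pool.Agent.H20.LIM.Defs
import Pool.Agent.H23.DZ.Targets

/-!
# Limits of `L`-functions near the critical line: module targets
-/

set_option autoImplicit false

open Complex MeasureTheory Set Filter Topology Metric

namespace Pool.Agent.H20.LIM

open Pool.Agent.H23.GLM Pool.Agent.H23.DZ

/-- The average over the disc of radius `r` about `z`. -/
noncomputable def av (r : ℝ) (f : ℂ → ℝ) (z : ℂ) : ℝ := ⨍ w in ball z r, f w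

/-- The `L^1` size on the closed disc of radius `R` about `0`. -/
noncomputable def L1 (R : ℝ) (f : ℂ → ℝ) : ENNReal := ∫⁻ z in closedBall (0 : ℂ) R, ‖f z‖ₑ

/-- The right half of a closed disc. -/
def HD (R : ℝ) : Set ℂ := closedBall (0 : ℂ) R ∩ {z | 0 ≤ z.re}

/-! ## Logarithms of analytic functions in discs -/

/-- POL: polar coordinates. -/
def T_POL : Prop := ∀ (f : ℂ → ℝ) (c : ℂ) (r : ℝ), 0 < r → IntegrableOn f (ball c r) →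
  av r f c = 2 / r ^ 2 * ∫ ρ in (0 : ℝ)..r, ρ * Real.circleAverage f c ρ

/-- SM: sub-mean value property of `log ‖h‖` for discs. -/
def T_SM : Prop := ∀ (h : ℂ → ℂ) (c : ℂ) (r : ℝ), 0 < r → AnalyticOnNhd ℂ h (closedBall c r) →
  h c ≠ 0 → IntegrableOn (fun z => Real.log ‖h z‖) (closedBall c r) ∧
    Real.log ‖h c‖ ≤ av r (fun z => Real.log ‖h z‖) c

/-- LI: `log ‖h‖` is locally integrable for entire `h ≠ 0`. -/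
def T_LI : Prop := ∀ h : ℂ → ℂ, Differentiable ℂ h → (∃ z, h z ≠ 0) →
  LocallyIntegrable (fun z => Real.log ‖h z‖) volume

/-- LJ: the `L^1` size of `log ‖h‖`. -/
def T_LJ : Prop := ∀ (h : ℂ → ℂ) (c : ℂ) (r A : ℝ), 0 < r → 0 ≤ A →
  AnalyticOnNhd ℂ h (closedBall c r) → (∀ z ∈ closedBall c r, ‖h z‖ ≤ Real.exp A) →
  Real.exp (-A) ≤ ‖h c‖ → IntegrableOn (fun z => Real.log ‖h z‖) (closedBall c r) ∧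
    ∫⁻ z in closedBall c r, ‖Real.log ‖h z‖‖ₑ ≤ ENNReal.ofReal (3 * Real.pi * r ^ 2 * A)

/-- ZF: the zeros in a disc. -/
def T_ZF : Prop := ∀ (c : ℂ) (r r1 B : ℝ) (h : ℂ → ℂ), 0 < r → r < r1 → 0 ≤ B →
  AnalyticOnNhd ℂ h (closedBall c r1) → (∀ z ∈ closedBall c r1, ‖h z‖ ≤ Real.exp B) →
  Real.exp (-B) ≤ ‖h c‖ →
  ∃ (n : ℕ) (ζ : Fin n → ℂ) (k : ℂ → ℂ), (n : ℝ) ≤ 2 * B / Real.log (r1 / r) ∧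
    (∀ j, ζ j ∈ closedBall c r) ∧ AnalyticOnNhd ℂ k (closedBall c r1) ∧
    (∀ z ∈ closedBall c r, k z ≠ 0) ∧ ∀ z ∈ closedBall c r1, h z = (∏ j, (z - ζ j)) * k z

/-- BC: the logarithm of a zero free function. -/
def T_BC : Prop := ∀ r' r : ℝ, 0 < r' → r' < r → ∃ C : ℝ, 0 < C ∧
  ∀ (c : ℂ) (k : ℂ → ℂ) (B : ℝ), 1 ≤ B → DifferentiableOn ℂ k (ball c r) →
  (∀ z ∈ ball c r, k z ≠ 0 ∧ ‖k z‖ ≤ Real.exp B) → Real.exp (-B) ≤ ‖k c‖ →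
  ∃ g : ℂ → ℂ, DifferentiableOn ℂ g (ball c r') ∧ (∀ z ∈ ball c r', ‖g z‖ ≤ C * B) ∧
    ∀ z ∈ ball c r', Real.log ‖k z‖ = (g z).re

/-- FAC: zeros and zero free part of a function with `|h| ≤ e^{AΛ}`, `|h(c)| ≥ e^{-AΛ}`. -/
def T_FAC : Prop := ∀ r0 r1 A : ℝ, 0 < r0 → r0 < r1 → 0 < A → ∃ C : ℝ, 0 < C ∧
  ∀ (c : ℂ) (h : ℂ → ℂ) (Λ : ℝ), 1 ≤ Λ → AnalyticOnNhd ℂ h (closedBall c r1) →
  (∀ z ∈ closedBall c r1, ‖h z‖ ≤ Real.exp (A * Λ)) → Real.exp (-(A * Λ)) ≤ ‖h c‖ →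
  ∃ (n : ℕ) (ζ : Fin n → ℂ) (g : ℂ → ℂ), (n : ℝ) ≤ C * Λ ∧ (∀ j, ζ j ∈ closedBall c r1) ∧
    DifferentiableOn ℂ g (ball c ((r0 + r1) / 2)) ∧ (∀ z ∈ ball c ((r0 + r1) / 2), ‖g z‖ ≤ C) ∧
    ∀ z ∈ closedBall c r0, h z ≠ 0 →
      Real.log ‖h z‖ / Λ = (∑ j, Real.log ‖z - ζ j‖) / Λ + (g z).re

/-- HARM: bounded analytic functions form a relatively compact set in `L^1` of a smaller disc. -/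
def T_HARM : Prop := ∀ (c : ℂ) (r0 r' C : ℝ), 0 < r0 → r0 < r' →
  ∃ K : Set (Lp ℝ 1 (volume.restrict (closedBall c r0))), IsCompact K ∧
    ∀ g : ℂ → ℂ, DifferentiableOn ℂ g (ball c r') → (∀ z ∈ ball c r', ‖g z‖ ≤ C) →
      ∃ k ∈ K, (k : ℂ → ℝ) =ᵐ[volume.restrict (closedBall c r0)] fun z => (g z).re

/-- COMP: the functions `log ‖h‖ / Λ` form a relatively compact set in `L^1` of a disc. -/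
def T_COMP : Prop := ∀ (c : ℂ) (r0 r1 A : ℝ), 0 < r0 → r0 < r1 → 0 < A →
  ∃ K : Set (Lp ℝ 1 (volume.restrict (closedBall c r0))), IsCompact K ∧
    ∀ (h : ℂ → ℂ) (Λ : ℝ), 1 ≤ Λ → AnalyticOnNhd ℂ h (closedBall c r1) →
      (∀ z ∈ closedBall c r1, ‖h z‖ ≤ Real.exp (A * Λ)) → Real.exp (-(A * Λ)) ≤ ‖h c‖ →
      ∃ k ∈ K, (k : ℂ → ℝ) =ᵐ[volume.restrict (closedBall c r0)] fun z => Real.log ‖h z‖ / Λ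

/-- DIAG: a diagonal sequence. -/
def T_DIAG : Prop := ∀ (D : ℕ → Set ℂ) (f : ℕ → ℂ → ℝ), Monotone D → (∀ n, MeasurableSet (D n)) →
  (∀ n, ∃ K : Set (Lp ℝ 1 (volume.restrict (D n))), IsCompact K ∧
    ∀ᶠ k in atTop, ∃ x ∈ K, (x : ℂ → ℝ) =ᵐ[volume.restrict (D n)] f k) →
  ∃ φ : ℕ → ℕ, StrictMono φ ∧ ∃ u : ℂ → ℝ, Measurable u ∧ ∀ n, IntegrableOn u (D n) ∧
    Tendsto (fun k => ∫⁻ z in D n, ‖f (φ k) z - u z‖ₑ) atTop (𝓝 0)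

/-- LSUB: the sub-mean value property of a limit. -/
def T_LSUB : Prop := ∀ (f : ℕ → ℂ → ℂ) (Λ : ℕ → ℝ) (u : ℂ → ℝ), (∀ᶠ k in atTop, 0 < Λ k) →
  (∀ R : ℝ, ∀ᶠ k in atTop, AnalyticOnNhd ℂ (f k) (closedBall 0 R) ∧
    ∀ᵐ z : ℂ, ‖z‖ ≤ R → f k z ≠ 0) →
  ToL1 (fun k z => Real.log ‖f k z‖ / Λ k) u →
  LocallyIntegrable u volume ∧ ∀ r : ℝ, 0 < r → ∀ᵐ z : ℂ, u z ≤ av r u z

/-! ## Functions with the sub-mean value property -/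

/-- TRA: continuity of translations and dilations in `L^1`. -/
def T_TRA : Prop := ∀ v : ℂ → ℝ, LocallyIntegrable v volume → ∀ R δ : ℝ, 0 < δ → ∃ η : ℝ, 0 < η ∧
  (∀ h : ℂ, ‖h‖ ≤ η → L1 R (fun z => v (z + h) - v z) ≤ ENNReal.ofReal δ) ∧
  (∀ l : ℝ, |l - 1| ≤ η → L1 R (fun z => v (l * z) - v z) ≤ ENNReal.ofReal δ)

/-- SMP: the strong maximum principle. -/
def T_SMP : Prop := ∀ (u : ℂ → ℝ) (G : Set ℂ), LocallyIntegrable u volume →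
  (∀ r : ℝ, 0 < r → ∀ᵐ z : ℂ, u z ≤ av r u z) → IsOpen G → IsPreconnected G →
  (∀ᵐ z : ℂ, z ∈ G → u z ≤ 0) →
  (∃ (z₀ : ℂ) (ρ : ℝ), 0 < ρ ∧ ball z₀ ρ ⊆ G ∧ ∀ᵐ z : ℂ, z ∈ ball z₀ ρ → u z = 0) →
  ∀ᵐ z : ℂ, z ∈ G → u z = 0

/-- PLB: a Phragmen-Lindelof principle in the strip `|Re z| ≤ 1/2`. -/
def T_PLB : Prop := ∀ (v : ℂ → ℝ) (a M : ℝ), LocallyIntegrable v volume →
  (∀ r : ℝ, 0 < r → ∀ᵐ z : ℂ, v z ≤ av r v z) → (∀ᵐ z : ℂ, |z.re| ≤ 1 → v z ≤ M) →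
  (∀ ε : ℝ, 0 < ε → ∀ᵐ z : ℂ, 1 / 2 < |z.re| → |z.re| < 1 / 2 + ε → v z ≤ a + ε) →
  ∀ᵐ z : ℂ, |z.re| ≤ 1 / 2 → v z ≤ a

/-! ## The limits of `L`-data -/

/-- GRO: growth near the critical line and to the right of it. -/
def T_GRO : Prop := ∀ (m : ℕ) (S : Set (LData m)), Molteni S → ∀ R : ℝ, 0 < R →
  ∃ A K : ℝ, 1 ≤ A ∧ ∀ π ∈ S, ∀ t : ℝ, K ≤ π.X t → ∀ z : ℂ, ‖z‖ ≤ R →
    DifferentiableAt ℂ π.L (1 / 2 + t * I + z) ∧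
    (-(1 / 4) ≤ z.re → ‖π.L (1 / 2 + t * I + z)‖ ≤ A * π.X t)

/-- SEQ: convergent subsequences in the right half plane. -/
def T_SEQ : Prop := ∀ (m : ℕ) (S : Set (LData m)), Molteni S → FarBounds S →
  ∀ (π : ℕ → LData m) (t : ℕ → ℝ), (∀ k, π k ∈ S) →
  Tendsto (fun k => (π k).X (t k)) atTop atTop →
  ∃ φ : ℕ → ℕ, StrictMono φ ∧ ∃ u : ℂ → ℝ, Measurable u ∧ ∀ R : ℝ, 0 < R → IntegrableOn u (HD R) ∧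
    Tendsto (fun k => ∫⁻ z in HD R, ‖U (π (φ k)) (t (φ k)) z - u z‖ₑ) atTop (𝓝 0)

/-- LGB: the size of the logarithm, uniformly in the centre. -/
def T_LGB : Prop := ∀ R : ℝ, 0 < R → ∃ C : ℝ, ∀ c : ℂ,
  L1 R (fun z => Real.log ‖z - c‖ - Real.log (1 + ‖c‖)) ≤ ENNReal.ofReal C

/-- RAT: the quotient of archimedean factors in `L^1`, uniformly in the parameter. -/
def T_RAT : Prop := ∀ R : ℝ, 0 < R → ∃ C : ℝ, ∀ (μ : ℂ) (t : ℝ), μ.re < 1 / 2 →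
  ∫⁻ z in HD R, ‖Real.log ‖ratio (1 / 2 + (t + z.im : ℝ) * I - μ) z.re‖ -
    z.re * Real.log (1 + ‖t * I - μ‖)‖ₑ ≤ ENNReal.ofReal C

/-- FEU: the functional equation in `L^1`. -/
def T_FEU : Prop := ∀ (m : ℕ) (R : ℝ), 0 < R → ∃ C : ℝ, ∀ (π : LData m) (t : ℝ),
  (∃ s, π.L s ≠ 0) → ∫⁻ z in HD R, ‖Real.log ‖π.L (1 / 2 + t * I + -(starRingEnd ℂ) z)‖ -
    Real.log ‖π.L (1 / 2 + t * I + z)‖ - z.re * Real.log (π.Q t)‖ₑ ≤ ENNReal.ofReal C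

/-- CPT: convergent subsequences. -/
def T_CPT : Prop := ∀ (m : ℕ) (S : Set (LData m)), Molteni S → FarBounds S →
  ∀ (π : ℕ → LData m) (t : ℕ → ℝ), (∀ k, π k ∈ S) →
  Tendsto (fun k => (π k).X (t k)) atTop atTop →
  ∃ φ : ℕ → ℕ, StrictMono φ ∧ ∃ (q : ℝ) (u : ℂ → ℝ), 0 ≤ q ∧ q ≤ 1 ∧
    Tendsto (fun k => Real.log ((π (φ k)).Q (t (φ k))) / Real.log ((π (φ k)).X (t (φ k))))
      atTop (𝓝 q) ∧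
    ToL1 (fun k => U (π (φ k)) (t (φ k))) u ∧
    ∀ᵐ z : ℂ, u (-(starRingEnd ℂ) z) = u z + q * z.re

/-- LAN: analyticity, zeros and measurability. -/
def T_LAN : Prop := ∀ (m : ℕ) (S : Set (LData m)), Molteni S → FarBounds S →
  ∀ (π : ℕ → LData m) (t : ℕ → ℝ), (∀ k, π k ∈ S) →
  Tendsto (fun k => (π k).X (t k)) atTop atTop →
  (∀ k, Measurable (U (π k) (t k))) ∧ ∀ R : ℝ, ∀ᶠ k in atTop,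
    AnalyticOnNhd ℂ (fun z => (π k).L (1 / 2 + t k * I + z)) (closedBall 0 R) ∧
    ∀ᵐ z : ℂ, ‖z‖ ≤ R → (π k).L (1 / 2 + t k * I + z) ≠ 0

/-- RGT: the limit to the right of the critical line. -/
def T_RGT : Prop := ∀ (m : ℕ) (S : Set (LData m)), Molteni S → FarBounds S →
  ∀ (q : ℝ) (u : ℂ → ℝ), IsLimit S q u → (∀ᵐ z : ℂ, 1 / 2 < z.re → u z ≤ 0) ∧
    (∃ σ : ℝ, ∀ᵐ z : ℂ, σ ≤ z.re → u z = 0) ∧ ∀ᵐ z : ℂ, -(1 / 4) ≤ z.re → u z ≤ 1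

/-- UNQ: uniqueness of the limit. -/
def T_UNQ : Prop := ∀ (f : ℕ → ℂ → ℝ) (u v : ℂ → ℝ), (∀ k, Measurable (f k)) → ToL1 f u →
  ToL1 f v → u =ᵐ[volume] v

/-- LIMP: limits are profiles. -/
def T_LIMP : Prop := ∀ (m : ℕ) (S : Set (LData m)), Molteni S → FarBounds S →
  ∀ (q : ℝ) (u : ℂ → ℝ), IsLimit S q u → 0 ≤ q ∧ q ≤ 1 ∧ Profile q u

/-- EXP1: the exponent on the critical line bounds the limits. -/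
def T_EXP1 : Prop := ∀ (m : ℕ) (S : Set (LData m)), Molteni S → ∀ a : ℝ, 0 ≤ a →
  (∀ ε : ℝ, 0 < ε → Bound S (a + ε)) → ∀ (q : ℝ) (u : ℂ → ℝ), IsLimit S q u →
  ∀ᵐ z : ℂ, 0 < z.re → u z ≤ a

/-- EXP2: the limits bound the exponent on the critical line. -/
def T_EXP2 : Prop := ∀ (m : ℕ) (S : Set (LData m)), Molteni S → FarBounds S → ∀ a : ℝ, 0 ≤ a →
  (∀ (q : ℝ) (u : ℂ → ℝ), IsLimit S q u → ∀ᵐ z : ℂ, 0 < z.re → u z ≤ a) →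
  ∀ ε : ℝ, 0 < ε → Bound S (a + ε)

/-! ## Regularisation of profiles -/

/-- The symmetric form `v(z) = u(z) + (q/2) Re z` of a profile. -/
structure VProf (q : ℝ) (v : ℂ → ℝ) : Prop where
  loc : LocallyIntegrable v volume
  sub : ∀ r : ℝ, 0 < r → ∀ᵐ z : ℂ, v z ≤ av r v z
  out : ∀ᵐ z : ℂ, 1 / 2 < |z.re| → v z = q / 2 * |z.re|
  symm : ∀ᵐ z : ℂ, v (-(starRingEnd ℂ) z) = v z
  le : ∀ᵐ z : ℂ, |z.re| ≤ 1 / 2 → v z ≤ q / 4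

/-- Lipschitz profiles (symmetric form). -/
structure LProf (q a : ℝ) (v : ℂ → ℝ) : Prop where
  lip : ∃ K : NNReal, LipschitzWith K v
  bdd : ∃ M : ℝ, ∀ z : ℂ, abs (v z - q / 2 * abs z.re) ≤ M
  sub : ∀ r : ℝ, 0 < r → ∀ z : ℂ, v z ≤ av r v z
  out : ∀ z : ℂ, a ≤ |z.re| → v z = q / 2 * |z.re|
  symm : ∀ z : ℂ, v (-(starRingEnd ℂ) z) = v z

/-- Periodic Lipschitz profiles. -/
structure Nice (q P : ℝ) (V : ℂ → ℝ) : Prop where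
  lip : ∃ K : NNReal, LipschitzWith K V
  per : ∀ z : ℂ, V (z + P * I) = V z
  sub : ∃ r₀ : ℝ, 0 < r₀ ∧ ∀ r : ℝ, 0 < r → r ≤ r₀ → ∀ z : ℂ, V z ≤ av r V z
  out : ∀ z : ℂ, 1 / 2 ≤ |z.re| → V z = q / 2 * |z.re|
  symm : ∀ z : ℂ, V (-(starRingEnd ℂ) z) = V z

def T_VPR : Prop := ∀ (q : ℝ) (u : ℂ → ℝ), 0 ≤ q → Profile q u →
  VProf q (fun z => u z + q / 2 * z.re)

/-- ULB: uniform local bounds. -/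
def T_ULB : Prop := ∀ (q : ℝ) (v : ℂ → ℝ), 0 ≤ q → q ≤ 1 → VProf q v →
  ∃ M : ℝ, ∀ z : ℂ, ∫⁻ w in ball z 1, ‖v w - q / 2 * |w.re|‖ₑ ≤ ENNReal.ofReal M

/-- DIL: dilation. -/
def T_DIL : Prop := ∀ (q : ℝ) (v : ℂ → ℝ), 0 ≤ q → VProf q v → ∀ R δ : ℝ, 0 < δ →
  ∃ (a : ℝ) (v' : ℂ → ℝ), 0 < a ∧ a < 1 / 2 ∧ VProf q v' ∧
    (∀ᵐ z : ℂ, a < |z.re| → v' z = q / 2 * |z.re|) ∧
    L1 R (fun z => v' z - v z) ≤ ENNReal.ofReal δ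

/-- AVF: averages are continuous and commute. -/
def T_AVF : Prop := ∀ v : ℂ → ℝ, LocallyIntegrable v volume → ∀ r ρ : ℝ, 0 < r → 0 < ρ →
  Continuous (av r v) ∧ ∀ z : ℂ, av r (av ρ v) z = av ρ (av r v) z

/-- AVL: averages of bounded functions are Lipschitz. -/
def T_AVL : Prop := ∀ (g : ℂ → ℝ) (M r : ℝ), Measurable g → (∀ z, |g z| ≤ M) → 0 < r →
  ∀ z z' : ℂ, |av r g z - av r g z'| ≤ 4 * M / r * ‖z - z'‖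

/-- AVC: averages converge in `L^1`. -/
def T_AVC : Prop := ∀ v : ℂ → ℝ, LocallyIntegrable v volume → ∀ R δ : ℝ, 0 < δ →
  ∃ ρ₀ : ℝ, 0 < ρ₀ ∧ ∀ ρ : ℝ, 0 < ρ → ρ ≤ ρ₀ →
    L1 R (fun z => av ρ v z - v z) ≤ ENNReal.ofReal δ

/-- REG: regularisation. -/
def T_REG : Prop := ∀ (q a : ℝ) (v : ℂ → ℝ), 0 ≤ q → q ≤ 1 → 0 < a → a < 1 / 2 → VProf q v →
  (∀ᵐ z : ℂ, a < |z.re| → v z = q / 2 * |z.re|) → ∀ R δ : ℝ, 0 < δ →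
  ∃ (a' : ℝ) (v' : ℂ → ℝ), a' < 1 / 2 ∧ LProf q a' v' ∧
    L1 R (fun z => v' z - v z) ≤ ENNReal.ofReal δ

/-- PSI: a cut off function with small derivatives. -/
def T_PSI : Prop := ∀ ε : ℝ, 0 < ε → ∃ ψ ψ' : ℝ → ℝ, (∀ y, 0 ≤ ψ y ∧ ψ y ≤ 1) ∧
  (∀ y, Real.pi / (2 * ε) ≤ |y| → ψ y = 0) ∧ (∀ y, 1 - ψ y ≤ (ε * y) ^ 2) ∧
  (∀ y, |ψ' y| ≤ ε) ∧ ∀ y y', |ψ y' - ψ y - ψ' y * (y' - y)| ≤ ε ^ 2 * (y' - y) ^ 2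

/-- The even `C^1` function which is `q (x²/2 + 1/8)` in the strip and `(q/2)|x|` outside. -/
noncomputable def v1 (q : ℝ) (z : ℂ) : ℝ :=
  if |z.re| ≤ 1 / 2 then q * (z.re ^ 2 / 2 + 1 / 8) else q / 2 * |z.re|

/-- CUTA: the cut off function has the sub-mean value property for small discs. -/
def T_CUTA : Prop := ∀ (q a : ℝ) (v : ℂ → ℝ), 0 < q → a < 1 / 2 → LProf q a v →
  ∀ δ : ℝ, 0 < δ → δ ≤ 1 → ∃ ε₀ r₀ : ℝ, 0 < ε₀ ∧ 0 < r₀ ∧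
    ∀ (ε : ℝ) (ψ ψ' : ℝ → ℝ), 0 < ε → ε ≤ ε₀ → (∀ y, 0 ≤ ψ y ∧ ψ y ≤ 1) → (∀ y, |ψ' y| ≤ ε) →
    (∀ y y', |ψ y' - ψ y - ψ' y * (y' - y)| ≤ ε ^ 2 * (y' - y) ^ 2) →
    ∀ r : ℝ, 0 < r → r ≤ r₀ → ∀ z : ℂ,
      (1 - δ) * (q / 2 * |z.re| + ψ z.im * (v z - q / 2 * |z.re|)) + δ * v1 q z ≤
      av r (fun z => (1 - δ) * (q / 2 * |z.re| + ψ z.im * (v z - q / 2 * |z.re|)) + δ * v1 q z) z

/-- CUT: cut off and periodise. -/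
def T_CUT : Prop := ∀ (q a : ℝ) (v : ℂ → ℝ), 0 < q → a < 1 / 2 → LProf q a v →
  ∀ R δ : ℝ, 0 < δ → ∃ (P : ℝ) (V : ℂ → ℝ), 1 ≤ P ∧ Nice q P V ∧
    L1 R (fun z => V z - v z) ≤ ENNReal.ofReal δ

/-- NAP: approximation of profiles by nice periodic functions. -/
def T_NAP : Prop := ∀ (q : ℝ) (u : ℂ → ℝ), 0 < q → q ≤ 1 → Profile q u → ∀ R δ : ℝ, 0 < δ →
  ∃ (P : ℝ) (V : ℂ → ℝ), 1 ≤ P ∧ Nice q P V ∧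
    L1 R (fun z => (V z - q / 2 * z.re) - u z) ≤ ENNReal.ofReal δ

/-! ## Potentials -/

/-- The kernel `(4/(π r²)) (log (r/|w|) - (1 - |w|²/r²)/2)` of the disc `|w| < r`. -/
noncomputable def kr (r : ℝ) (w : ℂ) : ℝ :=
  if ‖w‖ < r then 4 / (Real.pi * r ^ 2) * (Real.log (r / ‖w‖) - (1 - ‖w‖ ^ 2 / r ^ 2) / 2) else 0

/-- The periodic logarithmic kernel `log |1 - exp(-θ w)|`. -/
noncomputable def G (θ : ℝ) (w : ℂ) : ℝ := Real.log ‖1 - cexp (-(θ * w))‖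

/-- One period of the strip `|Re ζ| ≤ 1`. -/
def cell (P : ℝ) : Set ℂ := {ζ | |ζ.re| ≤ 1 ∧ 0 ≤ ζ.im ∧ ζ.im < P}

/-- KR: the kernel is a probability density. -/
def T_KR : Prop := ∀ r : ℝ, 0 < r → (∀ w, w ≠ 0 → 0 ≤ kr r w) ∧ IntegrableOn (kr r) (ball 0 r) ∧
  ∫ w in ball (0 : ℂ) r, kr r w = 1 ∧ ∫ w in ball (0 : ℂ) r, kr r w * w.re = 0

/-- ALOG: the disc averages of the logarithm. -/
def T_ALOG : Prop := ∀ (r : ℝ) (c : ℂ), 0 < r → c ≠ 0 →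
  av r (fun w => Real.log ‖w‖) c = Real.log ‖c‖ + Real.pi * r ^ 2 / 4 * kr r c

/-- AG: the disc averages of the periodic kernel. -/
def T_AG : Prop := ∀ (P r : ℝ) (c : ℂ), 0 < P → 0 < r → r < P / 2 → c ≠ 0 → |c.im| ≤ P / 2 →
  av r (G (2 * Real.pi / P)) c = G (2 * Real.pi / P) c + Real.pi * r ^ 2 / 4 * kr r c

/-- The strip `0 ≤ Im z < P`. -/
def strip (P : ℝ) : Set ℂ := {z | 0 ≤ z.im ∧ z.im < P}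

/-- STR: invariance of the integral over a period under translations. -/
def T_STR : Prop := ∀ (P : ℝ) (f : ℂ → ℝ), 0 < P → (∀ z, f (z + P * I) = f z) →
  IntegrableOn f (strip P) → ∀ h : ℂ, IntegrableOn (fun z => f (z + h)) (strip P) ∧
    ∫ z in strip P, f (z + h) = ∫ z in strip P, f z

/-- ADJ: the average operator is self adjoint. -/
def T_ADJ : Prop := ∀ (P r : ℝ) (g u : ℂ → ℝ), 0 < P → 0 < r → (∀ z, g (z + P * I) = g z) →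
  (∀ z, u (z + P * I) = u z) → Continuous u → LocallyIntegrable g volume →
  (∃ b : ℝ, ∀ z : ℂ, b ≤ z.re → u z = 0) → (∃ C : ℝ, ∀ z : ℂ, |u z| ≤ C * (1 + |z.re|)) →
  (∃ C c x₀ : ℝ, 0 < c ∧ ∀ z : ℂ, z.re ≤ x₀ → |g z| ≤ C * Real.exp (c * z.re)) →
  IntegrableOn (fun z => g z * (av r u z - u z)) (strip P) ∧
  IntegrableOn (fun z => (av r g z - g z) * u z) (strip P) ∧
    ∫ z in strip P, g z * (av r u z - u z) = ∫ z in strip P, (av r g z - g z) * u z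

/-- KER: the representation of a smoothed periodic profile as a potential. -/
def T_KER : Prop := ∀ (q P r : ℝ) (V : ℂ → ℝ), 0 < P → Nice q P V → 0 < r → r ≤ 1 / 4 → r < P / 4 →
  ∀ z : ℂ, IntegrableOn (fun ζ => G (2 * Real.pi / P) (z - ζ) * (av r V ζ - V ζ)) (cell P) ∧
    4 / (Real.pi * r ^ 2) * ∫ ζ in cell P, G (2 * Real.pi / P) (z - ζ) * (av r V ζ - V ζ) =
      ∫ w in ball (0 : ℂ) r, kr r w * (V (z + w) - q / 2 * (z + w).re)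

/-- GL: size and continuity of the periodic kernel. -/
def T_GL : Prop := ∀ θ R : ℝ, 0 < θ → 0 < R →
  (∃ C : ℝ, ∀ ζ : ℂ, |ζ.re| ≤ 1 → L1 R (fun z => G θ (z - ζ)) ≤ ENNReal.ofReal C) ∧
  (∀ δ : ℝ, 0 < δ → ∃ η : ℝ, 0 < η ∧ ∀ ζ ζ' : ℂ, |ζ.re| ≤ 1 → |ζ'.re| ≤ 1 → ‖ζ - ζ'‖ ≤ η →
    L1 R (fun z => G θ (z - ζ) - G θ (z - ζ')) ≤ ENNReal.ofReal δ) ∧
  (∀ δ : ℝ, 0 < δ → ∃ C : ℝ, 0 ≤ C ∧ ∀ w w' : ℂ, δ ≤ w.re → δ ≤ w'.re →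
    1 - cexp (-(θ * w)) ≠ 0 ∧ |G θ w| ≤ C ∧ |G θ w - G θ w'| ≤ C * ‖w - w'‖)

/-- GRD: a symmetric grid. -/
def T_GRD : Prop := ∀ P b s : ℝ, 0 < P → 0 < b → b ≤ 1 → 0 < s →
  ∃ (N : ℕ) (E : Fin N → Set ℂ) (c : Fin N → ℂ) (τ : Equiv.Perm (Fin N)),
    (∀ i, MeasurableSet (E i)) ∧ (Pairwise fun i j => Disjoint (E i) (E j)) ∧
    (∀ i, E i ⊆ cell P) ∧ (∀ i, ∀ ζ ∈ E i, |ζ.re| ≤ b ∧ ‖ζ - c i‖ ≤ s) ∧ (∀ i, |(c i).re| ≤ b) ∧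
    (∀ᵐ ζ : ℂ, ζ ∈ cell P → |ζ.re| < b → ∃ i, ζ ∈ E i) ∧
    (∀ i, c (τ i) = -(starRingEnd ℂ) (c i)) ∧
    ∀ i, E (τ i) = (fun z : ℂ => -(starRingEnd ℂ) z) ⁻¹' E i

/-- DIS: a potential is approximated by sums of kernels with equal weights. -/
def T_DIS : Prop := ∀ (P b : ℝ) (a : ℂ → ℝ), 0 < P → 0 < b → b ≤ 1 → Continuous a →
  (∀ z, 0 ≤ a z) → (∀ z, a (-(starRingEnd ℂ) z) = a z) → (∀ z, b ≤ |z.re| → a z = 0) →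
  ∀ R δ : ℝ, 0 < R → 0 < δ → ∃ Λ₀ : ℝ, ∀ Λ : ℝ, Λ₀ ≤ Λ →
  ∃ (n : ℕ) (ζ : Fin n → ℂ) (σ : Equiv.Perm (Fin n)),
    (∀ j, ζ (σ j) = -(starRingEnd ℂ) (ζ j)) ∧
    L1 R (fun z => Real.log ‖∏ j, (1 - cexp (-((2 * Real.pi / P : ℝ) * (z - ζ j))))‖ / Λ -
      ∫ ξ in cell P, G (2 * Real.pi / P) (z - ξ) * a ξ) ≤ ENNReal.ofReal δ ∧
    ∀ z : ℂ, b + δ ≤ z.re →
      ∏ j, (1 - cexp (-((2 * Real.pi / P : ℝ) * (z - ζ j)))) ≠ 0 ∧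
      |Real.log ‖∏ j, (1 - cexp (-((2 * Real.pi / P : ℝ) * (z - ζ j))))‖ / Λ -
        ∫ ξ in cell P, G (2 * Real.pi / P) (z - ξ) * a ξ| ≤ δ

/-- DISC: discretisation. -/
def T_DISC : Prop := ∀ (q P : ℝ) (V : ℂ → ℝ), 0 < P → Nice q P V → ∀ R δ : ℝ, 0 < R → 0 < δ →
  ∃ Λ₀ : ℝ, ∀ Λ : ℝ, Λ₀ ≤ Λ → ∃ (n : ℕ) (ζ : Fin n → ℂ) (σ : Equiv.Perm (Fin n)),
    (∀ j, ζ (σ j) = -(starRingEnd ℂ) (ζ j)) ∧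
    L1 R (fun z => Real.log ‖∏ j, (1 - cexp (-((2 * Real.pi / P : ℝ) * (z - ζ j))))‖ / Λ -
      (V z - q / 2 * z.re)) ≤ ENNReal.ofReal δ ∧
    ∀ z : ℂ, 1 / 2 + δ ≤ z.re →
      ∏ j, (1 - cexp (-((2 * Real.pi / P : ℝ) * (z - ζ j)))) ≠ 0 ∧
      |Real.log ‖∏ j, (1 - cexp (-((2 * Real.pi / P : ℝ) * (z - ζ j))))‖| ≤ δ * Λ

/-- SYM: the functional equation of a symmetric product. -/
def T_SYM : Prop := ∀ (θ : ℝ) (n : ℕ) (ζ : Fin n → ℂ) (σ : Equiv.Perm (Fin n)),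
  (∀ j, ζ (σ j) = -(starRingEnd ℂ) (ζ j)) →
  (∃ P : Polynomial ℂ, P.coeff 0 = 1 ∧
    ∀ z : ℂ, P.eval (cexp (-(θ * z))) = ∏ j, (1 - cexp (-(θ * (z - ζ j))))) ∧
  ∃ ε : ℂ, ‖ε‖ = 1 ∧ ∀ z : ℂ, ∏ j, (1 - cexp (-(θ * (z - ζ j)))) =
    ε * cexp (-(θ * n * z)) *
      (starRingEnd ℂ) (∏ j, (1 - cexp (-(θ * (-(starRingEnd ℂ) z - ζ j)))))

/-- INV: the power series of `1/P`. -/
def T_INV : Prop := ∀ (P : Polynomial ℂ) (ρ A : ℝ), 0 < ρ →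
  (∀ Y : ℂ, ‖Y‖ ≤ ρ → P.eval Y ≠ 0 ∧ |Real.log ‖P.eval Y‖| ≤ A) →
  ∃ d : ℕ → ℂ, (∀ n, ‖d n‖ * ρ ^ n ≤ Real.exp A) ∧
    ∀ Y : ℂ, ‖Y‖ < ρ → HasSum (fun n => d n * Y ^ n) (P.eval Y)⁻¹

/-- COR1: truncation of the power series of `1/P`. -/
def T_COR1 : Prop := ∀ θ δ : ℝ, 0 < θ → 0 < δ → δ ≤ 1 / 8 →
  ∃ Λ₀ : ℝ, ∀ Λ : ℝ, Λ₀ ≤ Λ → ∀ P : Polynomial ℂ, P.coeff 0 = 1 →
  (∀ z : ℂ, 1 / 2 + δ ≤ z.re → P.eval (cexp (-(θ * z))) ≠ 0 ∧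
    |Real.log ‖P.eval (cexp (-(θ * z)))‖| ≤ δ * Λ) →
  ∃ (n : ℕ) (d : ℕ → ℂ), 9 * δ * Λ ≤ n * θ ∧ n * θ ≤ 10 * δ * Λ ∧
    (∀ k, ‖d k‖ ≤ Real.exp (δ * Λ + θ * (1 / 2 + δ) * k)) ∧
    ∀ z : ℂ, 1 ≤ z.re → ‖P.eval (cexp (-(θ * z))) *
      (∑ k ∈ Finset.range (n + 1), d k * cexp (-(θ * z)) ^ k) - 1‖ ≤ 1 / 8

/-- COR: the correction far to the right. -/
def T_COR : Prop := ∀ R : ℝ, 0 < R → ∃ C : ℝ, 0 < C ∧ ∀ θ δ : ℝ, 0 < θ → 0 < δ → δ ≤ 1 / 8 →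
  ∃ Λ₀ : ℝ, ∀ Λ : ℝ, Λ₀ ≤ Λ → ∀ P : Polynomial ℂ, P.coeff 0 = 1 →
  (∀ z : ℂ, 1 / 2 + δ ≤ z.re → P.eval (cexp (-(θ * z))) ≠ 0 ∧
    |Real.log ‖P.eval (cexp (-(θ * z)))‖| ≤ δ * Λ) →
  ∃ (n : ℕ) (H : Polynomial ℂ), n * θ ≤ C * δ * Λ ∧
    (∀ z : ℂ, H.eval (cexp (-(θ * z))) = cexp (-(θ * n * z)) *
      (starRingEnd ℂ) (H.eval (cexp (-(θ * (-(starRingEnd ℂ) z)))))) ∧
    (∀ z : ℂ, 1 ≤ z.re →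
      ‖P.eval (cexp (-(θ * z))) * H.eval (cexp (-(θ * z))) - 1‖ ≤ 1 / 2) ∧
    (∀ z : ℂ, 0 ≤ z.re → ‖H.eval (cexp (-(θ * z)))‖ ≤ Real.exp (C * δ * Λ)) ∧
    L1 R (fun z => Real.log ‖H.eval (cexp (-(θ * z)))‖) ≤ ENNReal.ofReal (C * δ * Λ)

/-! ## Construction of `L`-data -/

/-- Entire functions `F` of exponential growth, bounded on right half planes, with the functional
equation `F(z) = ε N^{-z} conj F(-conj z)`. -/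
structure EP (N : ℕ) (F : ℂ → ℂ) : Prop where
  diff : Differentiable ℂ F
  growth : ∃ A B : ℝ, ∀ z : ℂ, ‖F z‖ ≤ Real.exp (A + B * |z.re|)
  right : ∀ x₀ : ℝ, ∃ B : ℝ, ∀ z : ℂ, x₀ ≤ z.re → ‖F z‖ ≤ B
  fe : ∃ ε : ℂ, ‖ε‖ = 1 ∧ ∀ z : ℂ, F z = ε * (N : ℂ) ^ (-z) *
    (starRingEnd ℂ) (F (-(starRingEnd ℂ) z))

/-- EXF: approximation of nice periodic functions by exponential polynomials. -/
def T_EXF : Prop := ∀ (q P : ℝ) (V : ℂ → ℝ), 0 < P → Nice q P V → ∀ R δ : ℝ, 0 < R → 0 < δ →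
  ∃ Λ₀ : ℝ, ∀ Λ : ℝ, Λ₀ ≤ Λ → ∃ (K : ℕ) (F : ℂ → ℂ), Differentiable ℂ F ∧
    (∃ A B : ℝ, ∀ z : ℂ, ‖F z‖ ≤ Real.exp (A + B * |z.re|)) ∧
    (∀ x₀ : ℝ, ∃ B : ℝ, ∀ z : ℂ, x₀ ≤ z.re → ‖F z‖ ≤ B) ∧
    (∃ ε : ℂ, ‖ε‖ = 1 ∧ ∀ z : ℂ, F z = ε * cexp (-((2 * Real.pi / P * K : ℝ) * z)) *
      (starRingEnd ℂ) (F (-(starRingEnd ℂ) z))) ∧
    L1 R (fun z => Real.log ‖F z‖ / Λ - (V z - q / 2 * z.re)) ≤ ENNReal.ofReal δ ∧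
    (∀ z : ℂ, 1 / 2 + δ ≤ z.re → ‖F z‖ ≤ Real.exp (δ * Λ)) ∧
    (∀ z : ℂ, 1 ≤ z.re → ‖F z - 1‖ ≤ 1 / 2)

/-- EXPA: approximation of profiles by such functions. -/
def T_EXPA : Prop := ∀ (q : ℝ) (u : ℂ → ℝ), 0 < q → q ≤ 1 → Profile q u →
  ∀ R δ Λ₁ : ℝ, 0 < R → 0 < δ → ∃ (N : ℕ) (F : ℂ → ℂ), 1 ≤ N ∧ EP N F ∧ Λ₁ ≤ Real.log N ∧
    L1 R (fun z => Real.log ‖F z‖ / (Real.log N / q) - u z) ≤ ENNReal.ofReal δ ∧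
    (∀ z : ℂ, 1 / 2 + δ ≤ z.re → ‖F z‖ ≤ (N : ℝ) ^ δ) ∧
    (∀ z : ℂ, 1 ≤ z.re → ‖F z - 1‖ ≤ 1 / 2)

/-- LD: `L`-data from such functions. -/
def T_LD : Prop := ∀ m : ℕ, ∃ (N₀ : ℕ) (a : ℂ) (A : ℂ → ℂ), 1 ≤ N₀ ∧ Differentiable ℂ A ∧
  (∃ σ₁ c : ℝ, 0 < c ∧ ∀ s : ℂ, σ₁ ≤ s.re → c ≤ ‖A s‖ ∧ ‖A s‖ ≤ c⁻¹) ∧
  (∀ ε : ℝ, 0 < ε → ∃ B : ℝ, ∀ s : ℂ, 1 + ε ≤ s.re → ‖A s‖ ≤ B) ∧
  ∀ (N : ℕ) (F : ℂ → ℂ) (τ : ℝ), 1 ≤ N → EP N F → ∃ π : LData m, π.N = N₀ * N ∧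
    (∀ j, π.μ j = a + τ * I) ∧ ∀ s : ℂ, π.L s = A (s - τ * I) * F (s - 1 / 2 - τ * I)

/-- FAMR: families of `L`-data from such functions. -/
def T_FAMR : Prop := ∀ m : ℕ, ∃ (N₀ : ℕ) (a : ℂ) (A : ℂ → ℂ), 1 ≤ N₀ ∧ Differentiable ℂ A ∧
  (∃ z, A z ≠ 0) ∧ ∀ (N : ℕ → ℕ) (F : ℕ → ℂ → ℂ) (τ : ℕ → ℝ), (∀ n, 1 ≤ N n) →
  (∀ n, EP (N n) (F n)) →
  (∀ (n : ℕ) (z : ℂ), 1 / 2 + 1 / (n + 1 : ℝ) ≤ z.re → ‖F n z‖ ≤ (N n : ℝ) ^ (1 / (n + 1 : ℝ))) →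
  (∀ (n : ℕ) (z : ℂ), 1 ≤ z.re → ‖F n z - 1‖ ≤ 1 / 2) →
  ∃ π : ℕ → LData m, Molteni (range π) ∧ FarBounds (range π) ∧ ∀ n,
    (π n).X (τ n) = N₀ * N n * (1 + ‖a + τ n * I‖) ^ m * (1 + |τ n|) ^ m ∧
    (π n).Q (τ n) = N₀ * N n * (1 + ‖a‖) ^ m ∧
    ∀ z : ℂ, (π n).L (1 / 2 + τ n * I + z) = A (1 / 2 + z) * F n z

/-- REAL: every profile is a limit. -/
def T_REAL : Prop := ∀ (m : ℕ) (q : ℝ) (u : ℂ → ℝ), 1 ≤ m → 0 ≤ q → q ≤ 1 → Profile q u →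
  ∃ S : Set (LData m), Molteni S ∧ FarBounds S ∧ IsLimit S q u

end Pool.Agent.H20.LIM
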