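import Pool.Agent.H20.LIM.Targets

/-!
# Limits of `L`-functions near the critical line: module targets, zeros
-/

set_option autoImplicit false

open Complex MeasureTheory Set Filter Topology Metric Laplacian

namespace Pool.Agent.H20.LIM

open Pool.Agent.H23.GLM Pool.Agent.H23.DZ

/-- LAP: the Laplacian as a limit of averages. -/
def T_LAP : Prop := ∀ φ : ℂ → ℝ, ContDiff ℝ 2 φ → HasCompactSupport φ → ∀ δ : ℝ, 0 < δ →
  ∃ r₀ : ℝ, 0 < r₀ ∧ ∀ r : ℝ, 0 < r → r ≤ r₀ → ∀ z : ℂ,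
    |8 / r ^ 2 * (av r φ z - φ z) - (Δ φ) z| ≤ δ

/-- SAD: the average operator is self adjoint. -/
def T_SAD : Prop := ∀ (h φ : ℂ → ℝ) (r : ℝ), 0 < r → LocallyIntegrable h volume → Continuous φ →
  HasCompactSupport φ → Integrable (fun z => h z * av r φ z) ∧
    Integrable (fun z => av r h z * φ z) ∧ ∫ z, h z * av r φ z = ∫ z, av r h z * φ z

/-- FUN: the fundamental solution. -/
def T_FUN : Prop := ∀ φ : ℂ → ℝ, ContDiff ℝ 2 φ → HasCompactSupport φ → ∀ c : ℂ,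
  Integrable (fun z => Real.log ‖z - c‖ * (Δ φ) z) ∧
    ∫ z, Real.log ‖z - c‖ * (Δ φ) z = 2 * Real.pi * φ c

/-- RIE: the Riesz measure of `log ‖f‖`. -/
def T_RIE : Prop := ∀ (f : ℂ → ℂ) (R : ℝ) (φ : ℂ → ℝ), 0 < R →
  AnalyticOnNhd ℂ f (closedBall 0 R) → (∃ z ∈ ball (0 : ℂ) R, f z ≠ 0) →
  ContDiff ℝ 2 φ → tsupport φ ⊆ ball 0 R →
  Integrable (fun z => Real.log ‖f z‖ * (Δ φ) z) ∧
    ∫ z, Real.log ‖f z‖ * (Δ φ) z =
      2 * Real.pi * ∑ᶠ w : ℂ, (analyticOrderNatAt f w : ℝ) * φ w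

/-- ZER: the zeros are distributed like the Riesz measure of the limit. -/
def T_ZER : Prop := ∀ (m : ℕ) (S : Set (LData m)), Molteni S → FarBounds S →
  ∀ (π : ℕ → LData m) (t : ℕ → ℝ) (u : ℂ → ℝ), (∀ k, π k ∈ S) →
  Tendsto (fun k => (π k).X (t k)) atTop atTop → ToL1 (fun k => U (π k) (t k)) u →
  ∀ φ : ℂ → ℝ, ContDiff ℝ 2 φ → HasCompactSupport φ →
    Tendsto (fun k => (∑ᶠ w : ℂ, (analyticOrderNatAt (π k).L (1 / 2 + t k * I + w) : ℝ) * φ w) /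
      Real.log ((π k).X (t k))) atTop (𝓝 ((2 * Real.pi)⁻¹ * ∫ z, u z * (Δ φ) z))

end Pool.Agent.H20.LIM
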